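import Pool.Agent.Lib.MP_ec946a_Games.Main

/-!
# 2-to-1 games with perfect completeness: a local consistency gap

For every soundness `0 < δ ≤ 1/2` there are 2-to-1 games of value at most `δ`, with `Θ(n)` vertices
and edges, over an alphabet of size `O((1/δ) log (1/δ))`, which the `k`-consistency algorithm
(existential `k`-pebble game) cannot tell from satisfiable ones, for a `k` linear in the size.

The gadget is the perfect 1-factorisation of the complete graph on `p + 1` points; the graph is a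
random lift of a Cayley graph.
-/

set_option autoImplicit false

namespace Pool.Agent.Results.MP_ec946a_lc.ConsistencyGap

open Pool.Agent.MP_ec946a

theorem result : ∀ δ : ℝ, 0 < δ → δ ≤ 1 / 2 →
    ∃ (q C : ℕ) (γ : ℝ), (q : ℝ) ≤ 51 * (1 / δ) * Real.log (1 / δ) ∧ 0 < γ ∧
      ∀ n : ℕ, 1 ≤ n → ∃ G : Game q, n ≤ Nat.card G.U ∧ n ≤ Nat.card G.V ∧
        Nat.card G.U + Nat.card G.V + Nat.card G.E ≤ C * n ∧
        G.value ≤ δ ∧ G.KConsistent ⌊γ * n⌋₊ := by
  intro δ hδ hδ2
  obtain ⟨q, C, γ, hq, hγ, h⟩ := main δ hδ hδ2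
  refine ⟨q, C, γ, hq, hγ, fun n hn => ?_⟩
  obtain ⟨G, h1, h2, h3, h4, h5⟩ := h n hn
  exact ⟨G, h1, h2, h3, h4, (h5 _ (Nat.floor_le (by positivity))).1⟩

end Pool.Agent.Results.MP_ec946a_lc.ConsistencyGap
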