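import Pool.Agent.Lib.MP_ec946a_RO.DnnfMain

/-!
# 2-to-1 games with perfect completeness: decomposable circuits

For every soundness `0 < δ < 1` there are an alphabet `Fin q` and bounded degree graphs with `n`
vertices on each side such that every decomposable circuit in negation normal form (DNNF; for
instance every nondeterministic read-once branching program) which accepts all exactly 2-to-1 games
of value one on that graph and rejects all those of value at most `δ` has size `2^{Ω(n)}`.

The circuit is decomposed into products of many small blocks of edges; planted games for labelings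
that are far from each other are combined along the blocks, and the graph is pseudorandom.
-/

set_option autoImplicit false

namespace Pool.Agent.Results.MP_ec946a_lc.DecomposableCircuits

open Pool.Agent.MP_ec946a.RO

theorem result : ∀ δ : ℝ, 0 < δ → δ < 1 → ∃ (q c : ℕ) (γ : ℝ), 0 < γ ∧ ∀ n : ℕ, 1 ≤ n →
    ∃ (E : Type) (_ : Fintype E) (_ : Nonempty E) (src tgt : E → Fin n),
      Fintype.card E ≤ c * n ∧
      ∀ (C : ℕ → Gate E (Fin q → Fin q)) (out : ℕ), Decomposable C out →
        SolvesGap src tgt δ (fun x => Eval C x out) → (2 : ℝ) ^ (γ * n) ≤ out + 1 := by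
  intro δ hδ hδ1
  obtain ⟨ρ, D, γ, hγ, hD, h⟩ := dnnf_core hδ hδ1
  refine ⟨2 * 2 ^ ρ, D, γ, hγ, fun n hn => ?_⟩
  obtain ⟨tgt, htgt⟩ := h n hn
  have hne : Nonempty (Fin n × Fin D) := ⟨(⟨0, hn⟩, ⟨0, hD⟩)⟩
  refine ⟨Fin n × Fin D, inferInstance, hne, Prod.fst, tgt, ?_, ?_⟩
  · rw [Fintype.card_prod, Fintype.card_fin, Fintype.card_fin, mul_comm]
  · intro C out hdec hsol
    apply htgt C out hdec
    · intro L τ hτ
      exact (hsol (inp τ) (twoFibres_proj τ)).1
        (gameOn_value_eq_one _ _ _ _ L.1 (fun v => emb (L.2 v)) fun e => inp_mem hτ e)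
    · intro τ hτ
      refine (hsol (inp τ) (twoFibres_proj τ)).2
        (gameOn_value_le (by positivity) _ _ _ _ _ fun LU LV => ?_)
      refine (hτ LU LV).trans (le_of_eq ?_)
      rw [Fintype.card_prod, Fintype.card_fin, Fintype.card_fin]
      push_cast
      ring

end Pool.Agent.Results.MP_ec946a_lc.DecomposableCircuits
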