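import Pool.Agent.Lib.MP_ec946a_sda.Main3

/-!
# 2-to-1 games with perfect completeness: a polynomial gap of the combined semidefinite and
affine integer relaxation

For every `k ≥ 1` there is a 2-to-1 game with alphabet size `q = 4^k + 3^k` which is accepted by
the algorithm that runs the basic semidefinite relaxation together with linear equations over the
integers, with matching supports, while the value of the game is at most `4 q^(-1/32)`.

The labels are the union of the labels of a game over the field with two elements (functions
against their restrictions to hyperplanes) and of a game over the field with three elements (the
reflection game), the constraints are pairs of constraints of both.  As `4^k` and `3^k` are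
coprime, constant integers on the labels solve the linear equations.  The bound for the value of
the reflection game follows from an analogue of Bonami's inequality for functions of permutations
of three points, in which the degree is replaced by the rank over the field with three elements.
-/

set_option autoImplicit false

namespace Pool.Agent.Results.MP_ec946a_lc.SDAGap

open Pool.Agent.MP_ec946a

theorem result : ∀ k : ℕ, 1 ≤ k → ∃ G : Game (2 ^ (2 * k) + 3 ^ k),
    (∃ n, Nonempty (G.SDASolution n)) ∧
    G.value ≤ 4 * ((2 ^ (2 * k) + 3 ^ k : ℕ) : ℝ) ^ (-(1 / 32) : ℝ) :=
  SDA.sda_gap

end Pool.Agent.Results.MP_ec946a_lc.SDAGap
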