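import Pool.Agent.Lib.MP_ec946a_sdp.HMain

/-!
# 2-to-1 games with perfect completeness: a polynomial gap of the semidefinite relaxation

For every `k ≥ 1` there is an exactly 2-to-1 game with alphabet size `q = 2^k` whose basic
semidefinite relaxation has value one, while the value of the game is at most `√2 q^(-1/8)`.

The game is the hyperplane game: functions on `F_2^k` up to characters against their restrictions
to hyperplanes.  The bound for its value follows from an analogue of Bonami's inequality in which
the degree of a Fourier coefficient is replaced by the rank of its set of variables.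
-/

set_option autoImplicit false

namespace Pool.Agent.Results.MP_ec946a_lc.SDPGap

open Pool.Agent.MP_ec946a

theorem result : ∀ k : ℕ, 1 ≤ k → ∃ G : Game (2 ^ k),
    (∀ e b, Nat.card {a // G.proj e a = b} = 0 ∨ Nat.card {a // G.proj e a = b} = 2) ∧
    IsGreatest {r : ℝ | ∃ (n : ℕ) (σ : G.SDPSolution n), σ.obj = r} 1 ∧
    G.value ≤ √2 * ((2 ^ k : ℕ) : ℝ) ^ (-(1 / 8) : ℝ) :=
  SDP.sdp_gap

end Pool.Agent.Results.MP_ec946a_lc.SDPGap
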