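import Pool.Agent.Lib.MP_ec946a_sda.Power

/-!
# 2-to-1 games with perfect completeness: a small power of the number of vertices as the level of
the semidefinite hierarchy

The level `t` of the mixed hierarchy (local distributions on `t + 2` vertices, with positive
semidefinite conditional matrices) accepts every 2-to-1 game of value one.  Conversely, if it
accepts a game, the value is at least `(β / 2)^(150 / β)` if `t ≥ 1152 n^β`, where `n` is the number
of vertices on the smaller side, and at least `(1 - √2 σ - ε)^2` if all but `m ≤ ε^2 t / 18` singular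
values of the constraint graph are at most `σ`.

Nothing depends on the alphabet.  For the first bound the game is cut into parts in which small
sets of vertices have few inner edges (the parts maximise a ratio of the number of inner edges and
a power of the sum of the degrees); the random walk started at a vertex of such a part spreads fast
in the second norm, and therefore the part has at most `(4 n)^β` large singular values.
-/

set_option autoImplicit false

namespace Pool.Agent.MP_ec946a.Kept.SublinearLevels

open Pool.Agent.MP_ec946a

theorem result :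
    (∀ (q : ℕ) (G : Game q) (t : ℕ), G.value = 1 → Nonempty (G.LevelSolution t)) ∧
    (∀ (q : ℕ) (G : Game q) (t : ℕ), Nonempty (G.LevelSolution t) →
      (∀ β : ℝ, 0 < β → β ≤ 1 → 1152 * (min (Nat.card G.U) (Nat.card G.V) : ℝ) ^ β ≤ t →
        (β / 2) ^ (150 / β) ≤ G.value) ∧
      (∀ (m : ℕ) (σ ε : ℝ), 0 ≤ σ → G.Expands m σ → 0 ≤ ε → 0 ≤ 1 - √2 * σ - ε →
        18 * m ≤ ε ^ 2 * t → (1 - √2 * σ - ε) ^ 2 ≤ G.value)) :=
  ⟨fun _ _ t h => SDA.exists_levelSolution h t, fun _ _ _ ⟨s⟩ =>
    ⟨fun _ hβ hβ1 ht => SDA.value_ge_of_min s hβ hβ1 ht, fun _ _ _ hσ hG hε hc ht =>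
      SDA.value_ge_of_level s hσ hε hc hG ht⟩⟩

end Pool.Agent.MP_ec946a.Kept.SublinearLevels
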