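import Pool.Agent.Lib.MP_ec946a_RO.TreeMain

/-!
# 2-to-1 games with perfect completeness: tree tensor programs over a field

For every soundness `0 < δ < 1` there are an alphabet `Fin q` and bounded degree graphs with `n`
vertices on each side such that over every field every read-once tree tensor program, which is
nonzero on the exactly 2-to-1 games of value one on that graph and zero on those of value at most
`δ`, has width `2^{Ω(n)}`.

The tree is cut into a bounded number of small blocks of edges; starting from a planted game, the
blocks are replaced one at a time by blocks of games planted for other labelings, keeping the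
output nonzero, by a choice of bases of the spaces of states; the graph is pseudorandom, so that
all games obtained from blocks for different labelings have small value.
-/

set_option autoImplicit false

namespace Pool.Agent.MP_ec946a.Kept.TreeTensorPrograms

open Pool.Agent.MP_ec946a.RO

theorem result : ∀ δ : ℝ, 0 < δ → δ < 1 → ∃ (q c : ℕ) (γ : ℝ), 0 < γ ∧ ∀ n : ℕ, 1 ≤ n →
    ∃ (E : Type) (_ : Fintype E) (_ : Nonempty E) (src tgt : E → Fin n),
      Fintype.card E ≤ c * n ∧
      ∀ (K : Type) [Field K] (w : ℕ) (T : TreeProg E (Fin q → Fin q) K w) (o : Fin w → K),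
        T.vars.Nodup → SolvesGap src tgt δ (fun x => T.out o x ≠ 0) →
          (2 : ℝ) ^ (γ * n) ≤ w := by
  intro δ hδ hδ1
  obtain ⟨ρ, D, γ, hγ, hD, h⟩ := tree_core hδ hδ1
  refine ⟨2 * 2 ^ ρ, D, γ, hγ, fun n hn => ?_⟩
  obtain ⟨tgt, htgt⟩ := h n hn
  have hne : Nonempty (Fin n × Fin D) := ⟨(⟨0, hn⟩, ⟨0, hD⟩)⟩
  refine ⟨Fin n × Fin D, inferInstance, hne, Prod.fst, tgt, ?_, ?_⟩
  · rw [Fintype.card_prod, Fintype.card_fin, Fintype.card_fin, mul_comm]
  · intro K _ w T o hnd hsol
    apply htgt K w T o hnd
    · intro L τ hτ
      exact (hsol (inp τ) (twoFibres_proj τ)).1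
        (gameOn_value_eq_one _ _ _ _ L.1 (fun v => emb (L.2 v)) fun e => inp_mem hτ e)
    · intro τ hτ
      refine not_not.1 ((hsol (inp τ) (twoFibres_proj τ)).2
        (gameOn_value_le (by positivity) _ _ _ _ _ fun LU LV => ?_))
      refine (hτ LU LV).trans (le_of_eq ?_)
      rw [Fintype.card_prod, Fintype.card_fin, Fintype.card_fin]
      push_cast
      ring

end Pool.Agent.MP_ec946a.Kept.TreeTensorPrograms
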